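import Pool.Agent.Lib.MP_610fe3_an.EQ.Ext
import Pool.Agent.Lib.MP_610fe3_an.TD.Mfd

/-!
# Stable holonomy is not equicontinuous on a proper attractor: splittings and manifolds
-/

open Set Filter Function Bundle
open scoped Manifold ContDiff Topology Uniformity

namespace Pool.Agent.Lib.MP610fe3.EQ

universe u v

/-- `g` is a bijection, `g'` its inverse.  The pairs `(p i, q i)`, `i ≤ m`, of points of `S` are
obtained from `(p 0, q 0)` by `m` steps of the holonomy along the local sets contracted by `g`: `q i`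
stays `E`-close to `p i` under all iterates of `g'`, and `p (i + 1)`, `q (i + 1)` stay `H`-close to
`p i`, `q i` under all iterates of `g`. -/
def Holonomy {M : Type*} (g g' : M → M) (S : Set M) (E H : Set (M × M)) (m : ℕ)
    (p q : ℕ → M) : Prop :=
  (∀ i ≤ m, p i ∈ S ∧ q i ∈ S ∧ ∀ j : ℕ, (g'^[j] (q i), g'^[j] (p i)) ∈ E) ∧
    ∀ i < m, ∀ j : ℕ, (g^[j] (p (i + 1)), g^[j] (p i)) ∈ H ∧
      (g^[j] (q (i + 1)), g^[j] (q i)) ∈ H

/-- The holonomy, inside `S`, along the sets contracted by `g` does not keep close points within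
`V`. -/
def Wild {M : Type*} [UniformSpace M] (g g' : M → M) (S : Set M) (E V : Set (M × M)) : Prop :=
  ∀ H ∈ 𝓤 M, ∀ R ∈ 𝓤 M, ∃ (m : ℕ) (p q : ℕ → M), Holonomy g g' S E H m p q ∧
    (∀ j : ℕ, (g'^[j] (q 0), g'^[j] (p 0)) ∈ R) ∧ (q m, p m) ∉ V

theorem Wild.mono {M : Type*} [UniformSpace M] {g g' : M → M} {S : Set M} {E V V' : Set (M × M)}
    (h : Wild g g' S E V) (hV : V' ⊆ V) : Wild g g' S E V' := by
  intro H hH R hR
  obtain ⟨m, p, q, h1, h2, h3⟩ := h H hH R hR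
  exact ⟨m, p, q, h1, h2, fun h => h3 (hV h)⟩

open TM N3

section Abstract

variable {M : Type v} {W : Type u} [MetricSpace M] [CompactSpace M] [NormedAddCommGroup W]
  [InnerProductSpace ℝ W] [FiniteDimensional ℝ W] {E : Emb M W} {f : M ≃ₜ M}

/-- One side. -/
theorem side_eq [ConnectedSpace M] (s : Split E f) (hs : s.Hyperbolic) {D : Set (M × M)}
    (hD : D ∈ 𝓤 M) : ∃ ε : ℝ, 0 < ε ∧ ∀ U : Set M, Trap f U → U.Nonempty → U ≠ univ →
      Wild f f.symm (Att f U) D {p | dist p.1 p.2 ≤ ε} := by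
  obtain ⟨e, C, a, e₁, he₁, R, h0, h0'⟩ := TD.exists_base s hs
  obtain ⟨e₂, he₂, hD'⟩ := Metric.mem_uniformity_dist.1 hD
  obtain ⟨ε, hε, Hm⟩ := main (e₂ := e₂ / 2) R he₁ h0 h0' (by positivity)
  refine ⟨ε, hε, fun U hU hne huniv H hH Rr hRr => ?_⟩
  obtain ⟨η, hη, hH'⟩ := Metric.mem_uniformity_dist.1 hH
  obtain ⟨r, hr, hR'⟩ := Metric.mem_uniformity_dist.1 hRr
  obtain ⟨m, p, q, ⟨h1, h2⟩, h3, h4⟩ := Hm U hU (H6.frontier_nonempty_of_trap hne huniv) (η / 2)
    (r / 2) (by positivity) (by positivity)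
  refine ⟨m, p, q, ⟨fun i hi => ⟨(h1 i hi).1, (h1 i hi).2.1, fun j => hD' ?_⟩,
    fun i hi j => ⟨hH' ?_, hH' ?_⟩⟩, fun j => hR' ?_, ?_⟩
  · have h5 := mem_Sp_symm.1 (h1 i hi).2.2 j
    rw [ev_neg_nat, ev_neg_nat] at h5
    exact h5.trans_lt (by linarith)
  · have h5 := (h2 i hi).1 j
    rw [ev_nat, ev_nat] at h5
    exact h5.trans_lt (by linarith)
  · have h5 := (h2 i hi).2 j
    rw [ev_nat, ev_nat] at h5
    exact h5.trans_lt (by linarith)
  · have h5 := mem_Sp_symm.1 h3 j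
    rw [ev_neg_nat, ev_neg_nat] at h5
    exact h5.trans_lt (by linarith)
  · rw [mem_ofPred_eq, not_le]
    exact h4

/-- Both sides. -/
theorem split_eq [ConnectedSpace M] (s : Split E f) (hs : s.Hyperbolic) {D : Set (M × M)}
    (hD : D ∈ 𝓤 M) : ∃ V ∈ 𝓤 M, ∀ U : Set M, IsOpen U → U.Nonempty → U ≠ univ →
      f '' closure U ⊆ U → Wild f f.symm {x | ∀ n : ℕ, f.symm^[n] x ∈ U} D V ∧
        Wild f.symm f {x | ∀ n : ℕ, f^[n] x ∉ U} D V := by
  obtain ⟨ε₁, hε₁, h₁⟩ := side_eq s hs hD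
  obtain ⟨ε₂, hε₂, h₂⟩ := side_eq s.swap hs.swap hD
  refine ⟨{p | dist p.1 p.2 < min ε₁ ε₂}, Metric.dist_mem_uniformity (lt_min hε₁ hε₂),
    fun U hU hne huniv htrap => ?_⟩
  have hT : Trap f U := ⟨hU, fun x hx => htrap ⟨x, hx, rfl⟩⟩
  have hA : {x | ∀ n : ℕ, f.symm^[n] x ∈ U} = Att f U := by
    ext x
    simp only [Att, mem_ofPred_eq, ev_neg_nat]
  have hR : {x | ∀ n : ℕ, f^[n] x ∉ U} = Rep f U := by
    ext x
    simp only [N3.Rep, mem_ofPred_eq, ev_nat]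
  rw [hA, hR]
  have hcl : closure U ≠ univ := by
    intro h
    refine huniv (eq_univ_of_univ_subset ?_)
    rw [← f.surjective.range_eq, ← image_univ, ← h]
    exact htrap
  constructor
  · refine (h₁ U hT hne huniv).mono fun p hp => ?_
    simp only [mem_ofPred_eq] at hp ⊢
    exact hp.le.trans (min_le_left _ _)
  · have h3 := h₂ (closure U)ᶜ hT.dual (nonempty_compl.2 hcl) (by
      intro h
      rw [compl_univ_iff] at h
      exact hne.ne_empty (subset_eq_empty subset_closure h))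
    have h4 : Att f.symm (closure U)ᶜ = Rep f U := by
      ext x
      constructor
      · intro h n hn
        have h5 := h n
        rw [ev_symm, neg_neg] at h5
        exact h5 (subset_closure hn)
      · intro h n hn
        rw [ev_symm, neg_neg] at hn
        have h5 := h (n + 1)
        refine h5 ?_
        have h6 := hT.maps _ hn
        rw [← ev_one (f := f), ← ev_add] at h6
        rwa [Nat.cast_succ, add_comm]
    rw [h4] at h3
    refine h3.mono fun p hp => ?_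
    simp only [mem_ofPred_eq] at hp ⊢
    exact hp.le.trans (min_le_right _ _)

end Abstract

section Manifold

variable {V : Type*} [NormedAddCommGroup V] [NormedSpace ℝ V] [FiniteDimensional ℝ V] {N : ℕ}
  {M : Type v} [MetricSpace M] [CompactSpace M] [ConnectedSpace M]
  [ChartedSpace V M] [IsManifold 𝓘(ℝ, V) ∞ M]
  [RiemannianBundle (fun x : M => TangentSpace 𝓘(ℝ, V) x)]
  [IsContinuousRiemannianBundle V (fun x : M => TangentSpace 𝓘(ℝ, V) x)]

/-- The manifold version for the metric of an embedding. -/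
theorem mfd_eq (e : M → EuclideanSpace ℝ (Fin N))
    (hiso : Isometry e) (he : ContMDiff 𝓘(ℝ, V) (𝓡 N) ∞ e)
    (hinj : ∀ x, Injective (mfderiv 𝓘(ℝ, V) (𝓡 N) e x))
    (f : M ≃ₘ^1⟮𝓘(ℝ, V), 𝓘(ℝ, V)⟯ M)
    (Es Eu : ∀ x : M, Submodule ℝ (TangentSpace 𝓘(ℝ, V) x))
    (hA : Gen.IsAnosovSplitting f Es Eu) :
    (∀ D ∈ 𝓤 M, ∃ S ∈ 𝓤 M, ∀ U : Set M, IsOpen U → U.Nonempty → U ≠ univ → f '' closure U ⊆ U →
      Wild f f.symm {x | ∀ n : ℕ, (⇑f.symm)^[n] x ∈ U} D S ∧
        Wild f.symm f {x | ∀ n : ℕ, (⇑f)^[n] x ∉ U} D S) ∧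
    (TopTransitive f ∨ ∃ U : Set M, IsOpen U ∧ U.Nonempty ∧ U ≠ univ ∧ f '' closure U ⊆ U) := by
  obtain ⟨E, hE, hEP, hr⟩ := Gen.exists_emb e hiso he hinj
  subst hE
  obtain ⟨s, hsH, hsS, hsU⟩ := Gen.exists_split E he hinj hr f Es Eu hA
  refine ⟨fun D hD => split_eq s hsH hD, ?_⟩
  by_cases hct : ChainTransitive f
  · exact Or.inl (topTransitive_of_shadowing (s.shadowing hsH) hct)
  · obtain ⟨U, hU, hne, huniv⟩ := Cf.H1.exists_trap (f := f.toHomeomorph) hct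
    exact Or.inr ⟨U, hU.1, hne, huniv, hU.2.image_subset⟩

end Manifold

end Pool.Agent.Lib.MP610fe3.EQ
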