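import Pool.Agent.Lib.MP_610fe3_an.EQ.Core

/-!
# Stable holonomy is not equicontinuous on a proper attractor: the metric theorem
-/

open Set Filter Function
open scoped Topology

namespace Pool.Agent.Lib.MP610fe3.EQ

open TM N3

variable {X : Type*} [MetricSpace X] {f : X ≃ₜ X} {U : Set X} {e C a : ℝ}

/-- Transport of the pair `(p 0, q 0)` by stable holonomy inside `S`, in `m` steps of size `η`. -/
def Hol (f : X ≃ₜ X) (S : Set X) (η e₂ : ℝ) (m : ℕ) (p q : ℕ → X) : Prop :=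
  (∀ i ≤ m, p i ∈ S ∧ q i ∈ S ∧ q i ∈ Sp f.symm e₂ (p i)) ∧
    ∀ i < m, p (i + 1) ∈ Sp f η (p i) ∧ q (i + 1) ∈ Sp f η (q i)

/-- The pairs obtained from pairs at distance at most `r`. -/
def Tr (f : X ≃ₜ X) (S : Set X) (η e₂ r : ℝ) (x y : X) : Prop :=
  ∃ (m : ℕ) (p q : ℕ → X), Hol f S η e₂ m p q ∧ q 0 ∈ Sp f.symm r (p 0) ∧ p m = x ∧ q m = y

theorem Tr.of {S : Set X} {η e₂ r : ℝ} {x y : X} (hx : x ∈ S) (hy : y ∈ S)
    (h2 : y ∈ Sp f.symm e₂ x) (hr : y ∈ Sp f.symm r x) : Tr f S η e₂ r x y :=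
  ⟨0, fun _ => x, fun _ => y, ⟨fun _ _ => ⟨hx, hy, h2⟩, fun i hi => absurd hi (Nat.not_lt_zero i)⟩,
    hr, rfl, rfl⟩

theorem Tr.step {S : Set X} {η e₂ r : ℝ} {x y x' y' : X} (h : Tr f S η e₂ r x y)
    (hx : x' ∈ S) (hy : y' ∈ S) (h2 : y' ∈ Sp f.symm e₂ x') (h3 : x' ∈ Sp f η x)
    (h4 : y' ∈ Sp f η y) : Tr f S η e₂ r x' y' := by
  obtain ⟨m, p, q, ⟨hH1, hH2⟩, h0, hp, hq⟩ := h
  refine ⟨m + 1, fun i => if i ≤ m then p i else x', fun i => if i ≤ m then q i else y',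
    ⟨fun i hi => ?_, fun i hi => ?_⟩, by simpa using h0, by simp, by simp⟩
  · by_cases h5 : i ≤ m
    · simp only [h5, if_true]
      exact hH1 i h5
    · simp only [h5, if_false]
      exact ⟨hx, hy, h2⟩
  · by_cases h5 : i + 1 ≤ m
    · have h6 : i ≤ m := by omega
      simp only [h5, h6, if_true]
      exact hH2 i (by omega)
    · have h6 : i = m := by omega
      subst h6
      simp only [le_refl, if_true, h5, if_false, hp, hq]
      exact ⟨h3, h4⟩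

/-- Uniqueness of the bracket. -/
theorem uni (R : Rates f U e C a a a) {x y : X} (h1 : y ∈ Sp f e x) (h2 : y ∈ Sp f.symm e x) :
    y = x := by
  have ha := R.a0
  have hC := R.C1
  have h3 : ∀ n : ℕ, dist y x ≤ C * Real.exp (-(a * n)) * e := by
    intro n
    have h4 : ev f n y ∈ Sp f.symm e (ev f n x) := by
      rw [mem_Sp_symm]
      intro j
      rw [← ev_add, ← ev_add]
      rcases le_or_gt j n with hj | hj
      · obtain ⟨t, rfl⟩ := Nat.exists_eq_add_of_le hj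
        rw [show -(j : ℤ) + ((j + t : ℕ) : ℤ) = t by push_cast; ring]
        exact h1 t
      · obtain ⟨t, rfl⟩ := Nat.exists_eq_add_of_le hj.le
        rw [show -((n + t : ℕ) : ℤ) + (n : ℤ) = -(t : ℤ) by push_cast; ring]
        exact mem_Sp_symm.1 h2 t
    have h5 := R.un _ _ h4 n
    rw [ev_neg_ev, ev_neg_ev] at h5
    have h6 : dist (ev f n y) (ev f n x) ≤ e := h1 n
    refine h5.trans ?_
    gcongr
  have h4 : Tendsto (fun n : ℕ => C * Real.exp (-(a * n)) * e) atTop (𝓝 0) := by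
    have h5 : Tendsto (fun n : ℕ => a * (n : ℝ)) atTop atTop :=
      Tendsto.const_mul_atTop ha tendsto_natCast_atTop_atTop
    have h6 := ((Real.tendsto_exp_neg_atTop_nhds_zero.comp h5).const_mul C).mul_const e
    simpa using h6
  have h5 : dist y x ≤ 0 := ge_of_tendsto' h4 h3
  exact dist_le_zero.1 h5

/-- Small stable steps stay small after a bounded unstable displacement. -/
theorem cl [CompactSpace X] (R : Rates f U e C a a a) {e₄ σ : ℝ} (he₄ : 0 ≤ e₄) (h4 : 2 * e₄ ≤ e)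
    (hσ : 0 < σ) : ∃ τ : ℝ, 0 < τ ∧ ∀ x y p q : X, y ∈ Sp f.symm e₄ x → p ∈ Sp f τ x →
      q ∈ Sp f.symm e₄ p → q ∈ Sp f e₄ y → q ∈ Sp f σ y := by
  have hC := R.C1
  have ha := R.a0
  suffices H : ∃ τ : ℝ, 0 < τ ∧ ∀ x y p q : X, y ∈ Sp f.symm e₄ x → p ∈ Sp f τ x →
      q ∈ Sp f.symm e₄ p → q ∈ Sp f e₄ y → dist q y ≤ σ / C by
    obtain ⟨τ, hτ, H⟩ := H
    refine ⟨τ, hτ, fun x y p q h1 h2 h3 h5 j => ?_⟩
    have h6 := R.st y q (Sp_mono (by linarith) h5) j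
    have h7 := H x y p q h1 h2 h3 h5
    have h8 : Real.exp (-(a * j)) ≤ 1 := by
      rw [Real.exp_le_one_iff]
      have : 0 ≤ a * (j : ℝ) := by positivity
      linarith
    calc _ ≤ C * Real.exp (-(a * j)) * dist q y := h6
      _ ≤ C * 1 * (σ / C) := by gcongr
      _ = σ := by field_simp
  by_contra hnot
  push Not at hnot
  have hn : ∀ n : ℕ, (0 : ℝ) < 1 / ((n : ℝ) + 1) := fun n => by positivity
  choose x y p q h1 h2 h3 h5 h6 using fun n : ℕ => hnot _ (hn n)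
  obtain ⟨⟨x₀, y₀, p₀, q₀⟩, -, ψ, hψ, hlim⟩ := (isCompact_univ (X := X × X × X × X)).tendsto_subseq
    (x := fun n => (x n, y n, p n, q n)) (fun _ => mem_univ _)
  have lx : Tendsto (fun n => x (ψ n)) atTop (𝓝 x₀) := (continuous_fst.tendsto _).comp hlim
  have ly : Tendsto (fun n => y (ψ n)) atTop (𝓝 y₀) :=
    ((continuous_fst.comp continuous_snd).tendsto _).comp hlim
  have lp : Tendsto (fun n => p (ψ n)) atTop (𝓝 p₀) :=
    ((continuous_fst.comp (continuous_snd.comp continuous_snd)).tendsto _).comp hlim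
  have lq : Tendsto (fun n => q (ψ n)) atTop (𝓝 q₀) :=
    ((continuous_snd.comp (continuous_snd.comp continuous_snd)).tendsto _).comp hlim
  have hpx : p₀ = x₀ := by
    have h7 : Tendsto (fun n => dist (p (ψ n)) (x (ψ n))) atTop (𝓝 (dist p₀ x₀)) := lp.dist lx
    have h8 : Tendsto (fun n => dist (p (ψ n)) (x (ψ n))) atTop (𝓝 0) := by
      refine squeeze_zero (fun _ => dist_nonneg) (fun n => Sp_dist (h2 (ψ n))) ?_
      exact tendsto_one_div_add_atTop_nhds_zero_nat.comp hψ.tendsto_atTop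
    exact dist_eq_zero.1 (tendsto_nhds_unique h7 h8)
  have c1 : y₀ ∈ Sp f.symm e₄ x₀ := (isClosed_rel f.symm e₄).mem_of_tendsto
    (lx.prodMk_nhds ly) (Eventually.of_forall fun n => h1 (ψ n))
  have c2 : q₀ ∈ Sp f.symm e₄ p₀ := (isClosed_rel f.symm e₄).mem_of_tendsto
    (lp.prodMk_nhds lq) (Eventually.of_forall fun n => h3 (ψ n))
  have c3 : q₀ ∈ Sp f e₄ y₀ := (isClosed_rel f e₄).mem_of_tendsto
    (ly.prodMk_nhds lq) (Eventually.of_forall fun n => h5 (ψ n))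
  rw [hpx] at c2
  have c4 : q₀ = y₀ := by
    refine uni R (Sp_mono (by linarith) c3) (Sp_mono (ε := e₄ + e₄) (by linarith) ?_)
    exact Sp_trans (Sp_comm c1) c2
  have h7 : Tendsto (fun n => dist (q (ψ n)) (y (ψ n))) atTop (𝓝 (dist q₀ y₀)) := lq.dist ly
  rw [c4, dist_self] at h7
  have h8 : σ / C ≤ 0 := ge_of_tendsto h7 (Eventually.of_forall fun n => (h6 (ψ n)).le)
  have h9 : 0 < σ / C := by positivity
  linarith

/-- Iterates of a trapping region. -/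
theorem trap_iter (hT : Trap f U) (n : ℕ) : Trap f {x | ev f (-(n : ℤ)) x ∈ U} := by
  refine ⟨hT.isOpen.preimage (continuous_ev _), fun x hx => ?_⟩
  have h1 : ev f (-(n : ℤ)) x ∈ closure U := by
    have h2 : closure {x | ev f (-(n : ℤ)) x ∈ U} ⊆ ev f (-(n : ℤ)) ⁻¹' closure U :=
      closure_minimal (fun y hy => subset_closure hy)
        (isClosed_closure.preimage (continuous_ev _))
    exact h2 hx
  have h2 := hT.maps _ h1
  rw [← ev_one (f := f), ← ev_add] at h2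
  rw [mem_ofPred_eq, ← ev_one (f := f) x, ← ev_add]
  rwa [add_comm] at h2

theorem att_iter (hT : Trap f U) (n : ℕ) : Att f {x | ev f (-(n : ℤ)) x ∈ U} = Att f U := by
  ext x
  constructor
  · intro h k
    have h1 := h k
    rw [mem_ofPred_eq, ← ev_add] at h1
    have h2 := hT.fwd h1 n
    rw [← ev_add] at h2
    rwa [show (n : ℤ) + (-(n : ℤ) + -(k : ℤ)) = -(k : ℤ) by ring] at h2
  · intro h k
    rw [mem_ofPred_eq, ← ev_add, show -(n : ℤ) + -(k : ℤ) = -((n + k : ℕ) : ℤ) by push_cast; ring]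
    exact h (n + k)

theorem frontier_iter (n : ℕ) (h : (frontier U).Nonempty) :
    (frontier {x | ev f (-(n : ℤ)) x ∈ U}).Nonempty := by
  obtain ⟨y, hy⟩ := h
  refine ⟨ev f n y, ?_⟩
  have h1 : {x | ev f (-(n : ℤ)) x ∈ U} = (f ^ (-(n : ℤ))) ⁻¹' U := rfl
  rw [h1, ← Homeomorph.preimage_frontier]
  have h2 : (f ^ (-(n : ℤ))) (ev f n y) = y := ev_neg_ev (f := f) n y
  rw [mem_preimage, h2]
  exact hy

theorem Hol.mono {S : Set X} {η e₂ e₂' : ℝ} {m : ℕ} {p q : ℕ → X} (h : Hol f S η e₂ m p q)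
    (he : e₂ ≤ e₂') : Hol f S η e₂' m p q :=
  ⟨fun i hi => ⟨(h.1 i hi).1, (h.1 i hi).2.1, Sp_mono he (h.1 i hi).2.2⟩, h.2⟩

theorem main_aux [CompactSpace X] (hR : ∀ U : Set X, Rates f U e C a a a) {e₁ e₂ : ℝ}
    (he₁ : 0 < e₁) (h0 : Reaches₀ f e₁) (h0' : Reaches₀ f.symm e₁) (he₂ : 0 < e₂) (he₂e : e₂ ≤ e) :
    ∃ ε : ℝ, 0 < ε ∧ ∀ U : Set X, Trap f U → (frontier U).Nonempty → ∀ η r : ℝ, 0 < η → 0 < r →
      ∃ (m : ℕ) (p q : ℕ → X), Hol f (Att f U) η e₂ m p q ∧ q 0 ∈ Sp f.symm r (p 0) ∧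
        ε < dist (q m) (p m) := by
  have R := hR univ
  have he := R.e0
  have hC := R.C1
  have ha := R.a0
  set e₄ : ℝ := min e₂ (e / 4) with he₄
  have he₄0 : 0 < e₄ := by positivity
  have he₄2 : e₄ ≤ e₂ := min_le_left _ _
  have he₄e : 4 * e₄ ≤ e := by
    have : e₄ ≤ e / 4 := min_le_right _ _
    linarith
  obtain ⟨δ₃, hδ₃, hbr₃⟩ := R.br (e₄ / 3) (by positivity)
  set ε : ℝ := min (δ₃ / 4) (e₄ / (8 * C)) with hε
  have hε0 : 0 < ε := by positivity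
  have hεδ : ε ≤ δ₃ / 4 := min_le_left _ _
  have hεe : ε ≤ e₄ / (8 * C) := min_le_right _ _
  have h8C : e₄ / (8 * C) ≤ e₄ / 8 := by
    apply div_le_div_of_nonneg_left he₄0.le (by norm_num) (by linarith)
  refine ⟨ε / C, by positivity, fun U hT hfr η r hη hr => ?_⟩
  by_contra hnot
  have hfar : ∀ (x y : X) (c : ℝ), y ∈ Sp f.symm e x → dist y x ≤ c / C → y ∈ Sp f.symm c x := by
    intro x y c h1 h2
    rw [mem_Sp_symm]
    intro j
    have h3 := R.un _ _ h1 j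
    have h4 : Real.exp (-(a * j)) ≤ 1 := by
      rw [Real.exp_le_one_iff]
      have : 0 ≤ a * (j : ℝ) := by positivity
      linarith
    calc _ ≤ C * Real.exp (-(a * j)) * dist y x := h3
      _ ≤ C * 1 * (c / C) := by gcongr
      _ = c := by field_simp
  -- equicontinuity
  have hEQ : ∀ x y, Tr f (Att f U) η e₂ r x y → x ∈ Att f U ∧ y ∈ Att f U ∧
      y ∈ Sp f.symm ε x := by
    rintro x y ⟨m, p, q, hH, h1, rfl, rfl⟩
    obtain ⟨h2, h3, h4⟩ := hH.1 m le_rfl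
    refine ⟨h2, h3, hfar _ _ _ (Sp_mono he₂e h4) ?_⟩
    by_contra h5
    exact hnot ⟨m, p, q, hH, h1, not_le.1 h5⟩
  -- saturation
  have hsat : ∀ {x y : X} {c : ℝ}, x ∈ Att f U → c ≤ e → y ∈ Sp f.symm c x → y ∈ Att f U :=
    fun hx hc hy => att_sat hT hx (R.un_tendsto (Sp_mono hc hy))
  -- the constants
  obtain ⟨τ₁, hτ₁, hcl₁⟩ := cl R he₄0.le (by linarith) hη
  set σ₁ : ℝ := min (e₄ / (8 * C)) (e₄ / 3) with hσ₁
  have hσ₁0 : 0 < σ₁ := by positivity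
  have hσ₁a : σ₁ ≤ e₄ / (8 * C) := min_le_left _ _
  have hσ₁b : σ₁ ≤ e₄ / 3 := min_le_right _ _
  obtain ⟨τ₂, hτ₂, hcl₂⟩ := cl R he₄0.le (by linarith) hσ₁0
  set ρ : ℝ := min σ₁ (min r e₂) with hρ
  have hρ0 : 0 < ρ := by positivity
  have hρσ : ρ ≤ σ₁ := min_le_left _ _
  have hρr : ρ ≤ r := (min_le_right _ _).trans (min_le_left _ _)
  have hρe : ρ ≤ e₂ := (min_le_right _ _).trans (min_le_right _ _)
  obtain ⟨δρ, hδρ, hbrρ⟩ := R.br ρ hρ0
  obtain ⟨s₀, hs₀, hs₁, hs₂, hs₃, hs₄, hs₅, hs₆⟩ : ∃ s₀ : ℝ, 0 < s₀ ∧ s₀ ≤ τ₁ / 4 ∧ s₀ ≤ τ₂ ∧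
      s₀ ≤ η / 4 ∧ s₀ ≤ δ₃ / 16 ∧ s₀ ≤ δρ / 4 ∧ s₀ ≤ e₄ / (8 * C) := by
    refine ⟨min (min (τ₁ / 4) τ₂) (min (min (η / 4) (δ₃ / 16)) (min (δρ / 4) (e₄ / (8 * C)))),
      by positivity, ?_, ?_, ?_, ?_, ?_, ?_⟩
    · exact (min_le_left _ _).trans (min_le_left _ _)
    · exact (min_le_left _ _).trans (min_le_right _ _)
    · exact (min_le_right _ _).trans ((min_le_left _ _).trans (min_le_left _ _))
    · exact (min_le_right _ _).trans ((min_le_left _ _).trans (min_le_right _ _))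
    · exact (min_le_right _ _).trans ((min_le_right _ _).trans (min_le_left _ _))
    · exact (min_le_right _ _).trans ((min_le_right _ _).trans (min_le_right _ _))
  obtain ⟨ε₂, hε₂, hε₂a, hε₂b, hε₂c, hε₂d⟩ : ∃ ε₂ : ℝ, 0 < ε₂ ∧ ε₂ ≤ τ₁ / 4 ∧ ε₂ ≤ η / 4 ∧
      ε₂ ≤ δ₃ / 16 ∧ ε₂ ≤ e₄ / 4 := by
    refine ⟨min (min (τ₁ / 4) (η / 4)) (min (δ₃ / 16) (e₄ / 4)), by positivity, ?_, ?_, ?_, ?_⟩
    · exact (min_le_left _ _).trans (min_le_left _ _)
    · exact (min_le_left _ _).trans (min_le_right _ _)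
    · exact (min_le_right _ _).trans (min_le_left _ _)
    · exact (min_le_right _ _).trans (min_le_right _ _)
  obtain ⟨δ₀, hδ₀, hbr₀⟩ := R.br s₀ hs₀
  obtain ⟨N, hN⟩ := close_rep hT.dual hδ₀
  rw [rep_dual hT] at hN
  -- the points `x` with `f x ∈ U'` are close to the attractor
  have hnear : ∀ x, f x ∈ {x | ev f (-(N : ℤ)) x ∈ U} → ∃ p ∈ Att f U, p ∈ Sp f s₀ x := by
    intro x hx
    rw [mem_ofPred_eq] at hx
    obtain ⟨w, hw, hwd⟩ := hN (ev f (-(N : ℤ)) x) (by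
      rw [mem_compl_iff, not_not, ev_symm, neg_neg, ← ev_add]
      refine subset_closure ?_
      rw [← ev_one (f := f) x, ← ev_add] at hx
      rwa [add_comm] at hx)
    rw [ev_symm, neg_neg, ev_ev_neg, dist_comm] at hwd
    obtain ⟨p, hp1, hp2⟩ := hbr₀ _ _ hwd
    refine ⟨p, hsat hw ?_ hp2, hp1⟩
    have h1 : s₀ ≤ e₄ / 8 := hs₆.trans h8C
    linarith
  refine core (r := min (δρ / 4) (e₄ / 2)) (ε₁ := e₄ / 2) (ε₂ := ε₂)
    (P := fun x y => y ∈ Sp f.symm (e₄ / 2) x ∧ ∃ p q, Tr f (Att f U) η e₂ r p q ∧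
      p ∈ Sp f s₀ x ∧ q ∈ Sp f σ₁ y)
    (hR {x | ev f (-(N : ℤ)) x ∈ U}) (trap_iter hT N) (frontier_iter N hfr) he₁ h0 h0'
    (by positivity) hε₂ (by positivity) (by linarith) ?_ (fun x y _ h => h.1) ?_
  · -- small plaques
    intro x y hx hy
    refine ⟨Sp_mono (min_le_right _ _) hy, ?_⟩
    obtain ⟨p, hp, hpx⟩ := hnear x hx
    have h1 : dist y p < δρ := by
      have h2 : dist y x ≤ min (δρ / 4) (e₄ / 2) := Sp_dist hy
      have h3 : dist p x ≤ s₀ := Sp_dist hpx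
      have h4 := dist_triangle_right y p x
      have h5 : min (δρ / 4) (e₄ / 2) ≤ δρ / 4 := min_le_left _ _
      linarith
    obtain ⟨q, hq1, hq2⟩ := hbrρ _ _ h1
    exact ⟨p, q, Tr.of hp (hsat hp (hρe.trans he₂e) hq2) (Sp_mono hρe hq2) (Sp_mono hρr hq2), hpx,
      Sp_mono hρσ hq1⟩
  · -- invariance
    rintro x x' y y' hx hx' hxx' ⟨hyx, p, q, hpq, hpx, hqy⟩ hyy' hy'x'
    obtain ⟨p', hp', hpx'⟩ := hnear x' hx'
    obtain ⟨hpA, hqA, hqp⟩ := hEQ _ _ hpq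
    have h1 : p' ∈ Sp f (s₀ + ε₂ + s₀) p := Sp_trans (Sp_trans (Sp_comm hpx) hxx') hpx'
    have h2 : dist q p' < δ₃ := by
      have h3 : dist q p ≤ ε := Sp_dist hqp
      have h4 : dist p' p ≤ s₀ + ε₂ + s₀ := Sp_dist h1
      have h5 := dist_triangle_right q p' p
      linarith
    obtain ⟨q', hq1, hq2⟩ := hbr₃ _ _ h2
    have hq'A : q' ∈ Att f U := hsat hp' (by linarith) hq2
    have h3 : q' ∈ Sp f η q := hcl₁ p q p' q' (Sp_mono (by linarith) hqp)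
      (Sp_mono (by linarith) h1) (Sp_mono (by linarith) hq2) (Sp_mono (by linarith) hq1)
    have h4 : Tr f (Att f U) η e₂ r p' q' := hpq.step hp' hq'A (Sp_mono (by linarith) hq2)
      (Sp_mono (by linarith) h1) h3
    have h5 : q' ∈ Sp f (ε₂ + σ₁ + e₄ / 3) y' := Sp_trans (Sp_trans (Sp_comm hyy') hqy) hq1
    have h6 : q' ∈ Sp f σ₁ y' := hcl₂ x' y' p' q' (Sp_mono (by linarith) hy'x')
      (Sp_mono hs₂ hpx') (Sp_mono (by linarith) hq2) (Sp_mono (by linarith) h5)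
    obtain ⟨-, -, h7⟩ := hEQ _ _ h4
    refine ⟨hfar _ _ _ (Sp_mono (by linarith) hy'x') ?_, p', q', h4, hpx', h6⟩
    have h8 : dist q' y' ≤ σ₁ := Sp_dist h6
    have h9 : dist q' p' ≤ ε := Sp_dist h7
    have h10 : dist p' x' ≤ s₀ := Sp_dist hpx'
    have h11 := dist_triangle4 y' q' p' x'
    rw [dist_comm y' q'] at h11
    have h12 : e₄ / (8 * C) + e₄ / (8 * C) + e₄ / (8 * C) ≤ e₄ / 2 / C := by
      rw [show e₄ / (8 * C) + e₄ / (8 * C) + e₄ / (8 * C) = 3 * e₄ / 8 / C by ring]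
      exact div_le_div_of_nonneg_right (by linarith) (by linarith)
    linarith

/-- **The stable holonomy inside a proper attractor is not equicontinuous.** -/
theorem main [CompactSpace X] (hR : ∀ U : Set X, Rates f U e C a a a) {e₁ e₂ : ℝ} (he₁ : 0 < e₁)
    (h0 : Reaches₀ f e₁) (h0' : Reaches₀ f.symm e₁) (he₂ : 0 < e₂) :
    ∃ ε : ℝ, 0 < ε ∧ ∀ U : Set X, Trap f U → (frontier U).Nonempty → ∀ η r : ℝ, 0 < η → 0 < r →
      ∃ (m : ℕ) (p q : ℕ → X), Hol f (Att f U) η e₂ m p q ∧ q 0 ∈ Sp f.symm r (p 0) ∧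
        ε < dist (q m) (p m) := by
  have he := (hR univ).e0
  obtain ⟨ε, hε, H⟩ := main_aux hR (e₂ := min e₂ e) he₁ h0 h0' (by positivity) (min_le_right _ _)
  refine ⟨ε, hε, fun U hT hfr η r hη hr => ?_⟩
  obtain ⟨m, p, q, h1, h2, h3⟩ := H U hT hfr η r hη hr
  exact ⟨m, p, q, h1.mono (min_le_left _ _), h2, h3⟩

end Pool.Agent.Lib.MP610fe3.EQ
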