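import Pool.Agent.Lib.MP_610fe3_an.N3.Growth

/-!
# Stable holonomy is not equicontinuous on a proper attractor: the core

`U` is a trapping region.  `P x y` is a relation between points `x` with `f x ∈ U` and points `y` of
the local unstable set of `x`, which contains a small plaque around each point and is invariant under
stable holonomy.  From a point one may make at most `N` moves along `P`, then one passes to the image
under `f`, makes again at most `N` moves along `P`, and so on.  The set of points from which one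
never leaves `f⁻¹ U` contains the attractor, is uniformly open along stable sets, and contains no
point of `f U`-complement.
-/

open Set Filter Function
open scoped Topology

namespace Pool.Agent.Lib.MP610fe3.EQ

open TM N3

variable {X : Type*} [MetricSpace X] {f : X ≃ₜ X} {U : Set X} {P : X → X → Prop}
  {e C a r ε₁ ε₂ : ℝ} {N : ℕ} {x y z : X} {i k : ℕ}

/-- `Rch f U P N x z i k`: starting from `x` one can be in `z` after `k` passages to the image, and
`i` moves remain before the next passage. -/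
inductive Rch (f : X ≃ₜ X) (U : Set X) (P : X → X → Prop) (N : ℕ) (x : X) : X → ℕ → ℕ → Prop
  | start : Rch f U P N x x N 0
  | move (z z' : X) (i k : ℕ) : Rch f U P N x z (i + 1) k → f z ∈ U → P z z' →
      Rch f U P N x z' i k
  | up (z : X) (i k : ℕ) : Rch f U P N x z i k → f z ∈ U → Rch f U P N x (f z) N (k + 1)

/-- The points from which one never leaves `f⁻¹ U`. -/
def Good (f : X ≃ₜ X) (U : Set X) (P : X → X → Prop) (N : ℕ) (x : X) : Prop :=
  ∀ z i k, Rch f U P N x z i k → f z ∈ U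

theorem Rch.trans {z' : X} {i' k' : ℕ} (h1 : Rch f U P N x z i k) (hz : f z ∈ U)
    (h2 : Rch f U P N (f z) z' i' k') : Rch f U P N x z' i' (k + 1 + k') := by
  induction h2 with
  | start => exact .up _ _ _ h1 hz
  | move w w' i k _ hw hP ih => exact .move _ _ _ _ ih hw hP
  | up w i k _ hw ih => exact .up _ _ _ ih hw

theorem Good.next (h : Good f U P N x) (h1 : Rch f U P N x z i k) : Good f U P N (f z) :=
  fun _ _ _ h2 => h _ _ _ (h1.trans (h _ _ _ h1) h2)

theorem Rch.le (h : Rch f U P N x z i k) : i ≤ N := by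
  induction h with
  | start => exact le_rfl
  | move w w' i k _ hw hP ih => omega
  | up w i k _ hw ih => exact le_rfl

/-- Points outside `f U` can leave `f⁻¹ U`. -/
theorem not_good (hlow : ∀ x y, f x ∈ U → y ∈ Sp f.symm r x → P x y)
    (hF2 : ∃ k ≤ N, ∃ q ∈ Rep f U, Chn f r r k x q) : ¬ Good f U P N x := by
  intro hG
  obtain ⟨k, hk, q, hq, s, hs0, hsk, hs⟩ := hF2
  have key : ∀ i ≤ k, Rch f U P N x (s i) (N - i) 0 := by
    intro i
    induction i with
    | zero =>
      intro _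
      rw [hs0]
      exact .start
    | succ i ih =>
      intro hi
      have h1 := ih (by omega)
      have h2 := hG _ _ _ h1
      refine .move (s i) _ _ _ ?_ h2 (hlow _ _ h2 (hs i (by omega)).2)
      rwa [show N - (i + 1) + 1 = N - i by omega]
  have h1 := hG _ _ _ (key k le_rfl)
  rw [hsk] at h1
  refine hq 1 ?_
  rwa [Nat.cast_one, ev_one]

/-- The points reached from a good point are in `U`. -/
theorem Good.mem (hlow : ∀ x y, f x ∈ U → y ∈ Sp f.symm r x → P x y)
    (hF2 : ∀ x, ev f (-1) x ∉ U → ∃ k ≤ N, ∃ q ∈ Rep f U, Chn f r r k x q)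
    (h : Good f U P N x) (h1 : Rch f U P N x z i k) : z ∈ U := by
  by_contra hz
  refine not_good hlow (hF2 (f z) ?_) (h.next h1)
  rwa [← ev_one (f := f), ev_neg_ev]

/-- Points of the attractor are good. -/
theorem good_att (hT : Trap f U) (hC : ∀ p q, q ∈ Sp f.symm e p →
    Tendsto (fun n : ℕ => dist (ev f (-n) q) (ev f (-n) p)) atTop (𝓝 0))
    [CompactSpace X] (hup : ∀ x y, f x ∈ U → P x y → y ∈ Sp f.symm ε₁ x) (he : ε₁ ≤ e)
    (hx : x ∈ Att f U) : Good f U P N x := by
  have key : ∀ z i k, Rch f U P N x z i k → z ∈ Att f U := by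
    intro z i k h
    induction h with
    | start => exact hx
    | move w w' i k _ hw hP ih => exact att_sat hT ih (hC _ _ (Sp_mono he (hup _ _ hw hP)))
    | up w i k _ hw ih =>
      have := att_ev hT ih 1
      rwa [ev_one] at this
  intro z i k h
  exact hT.maps _ (subset_closure (att_sub (key _ _ _ h)))

/-- Contraction of a plaque in the past. -/
theorem contr (hC : 0 ≤ C) (ha : 0 ≤ a)
    (hun : ∀ p q, q ∈ Sp f.symm e p → ∀ j : ℕ,
      dist (ev f (-j) q) (ev f (-j) p) ≤ C * Real.exp (-(a * j)) * dist q p)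
    (he : ε₁ ≤ e) (h : y ∈ Sp f.symm ε₁ x) (K : ℕ) :
    ev f (-(K : ℤ)) y ∈ Sp f.symm (C * Real.exp (-(a * K)) * ε₁) (ev f (-(K : ℤ)) x) := by
  rw [mem_Sp_symm]
  intro j
  rw [← ev_add, ← ev_add, show -(j : ℤ) + -(K : ℤ) = -((j + K : ℕ) : ℤ) by push_cast; ring]
  have h1 := hun _ _ (Sp_mono he h) (j + K)
  have h2 : dist y x ≤ ε₁ := Sp_dist h
  have h3 : Real.exp (-(a * ((j + K : ℕ) : ℝ))) ≤ Real.exp (-(a * K)) := by
    apply Real.exp_le_exp.2
    push_cast
    have : 0 ≤ a * (j : ℝ) := by positivity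
    linarith
  have h4 : (0 : ℝ) ≤ dist y x := dist_nonneg
  calc _ ≤ C * Real.exp (-(a * ((j + K : ℕ) : ℝ))) * dist y x := h1
    _ ≤ C * Real.exp (-(a * K)) * ε₁ := by gcongr

/-- **The set of good points is uniformly open along stable sets.** -/
theorem stab [CompactSpace X] (R : Rates f U e C a a a)
    (hmar : ∀ z ∈ U, ∀ z', dist z' z ≤ ε₂ → f z' ∈ U) (hε₂ : 0 < ε₂) (hε₁ : 0 ≤ ε₁) (he : ε₁ ≤ e)
    (hlow : ∀ x y, f x ∈ U → y ∈ Sp f.symm r x → P x y)
    (hup : ∀ x y, f x ∈ U → P x y → y ∈ Sp f.symm ε₁ x)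
    (hinv : ∀ x x' y y', f x ∈ U → f x' ∈ U → x' ∈ Sp f ε₂ x → P x y → y' ∈ Sp f ε₂ y →
      y' ∈ Sp f.symm (ε₁ + 2 * ε₂) x' → P x' y')
    (hF2 : ∀ x, ev f (-1) x ∉ U → ∃ k ≤ N, ∃ q ∈ Rep f U, Chn f r r k x q) :
    ∃ δ : ℝ, 0 < δ ∧ ∀ x x', Good f U P N x → x' ∈ Sp f δ x → Good f U P N x' := by
  have hC := R.C1
  have ha := R.a0
  obtain ⟨δB, hδB, hbr⟩ := R.br ε₂ hε₂
  set η : ℝ := min (δB / 4) ε₂ with hη
  have hη0 : 0 < η := by positivity
  set θ : ℝ := Real.exp (-a) with hθ
  have hθ0 : 0 < θ := Real.exp_pos _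
  have hθ1 : θ < 1 := by rw [hθ, Real.exp_lt_one_iff]; linarith
  have hpow : ∀ j : ℕ, Real.exp (-(a * j)) = θ ^ j := by
    intro j
    rw [hθ, ← Real.exp_nat_mul]
    congr 1
    ring
  -- the time `k₀`
  obtain ⟨k₀, hk₀⟩ : ∃ k₀ : ℕ, ε₁ * C * N / (1 - θ) * θ ^ k₀ ≤ η := by
    have h1 := (tendsto_pow_atTop_nhds_zero_of_lt_one hθ0.le hθ1).const_mul
      (ε₁ * C * N / (1 - θ))
    rw [mul_zero] at h1
    exact (h1.eventually_le_const hη0).exists
  set c : ℝ := ε₁ * C * θ ^ k₀ with hc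
  have hc0 : 0 ≤ c := by positivity
  set σ : ℕ → ℕ → ℝ := fun k i => c * (N * ∑ j ∈ Finset.range k, θ ^ j + (N - i) * θ ^ k) with hσ
  have hσ0 : ∀ k i : ℕ, i ≤ N → 0 ≤ σ k i := by
    intro k i hi
    have h1 : (0 : ℝ) ≤ (N : ℝ) - i := by
      have : (i : ℝ) ≤ N := by exact_mod_cast hi
      linarith
    have h2 : 0 ≤ ∑ j ∈ Finset.range k, θ ^ j := Finset.sum_nonneg fun j _ => by positivity
    simp only [hσ]
    positivity
  have hσ1 : ∀ k i : ℕ, σ k i ≤ η := by
    intro k i
    have h1 : (∑ j ∈ Finset.range (k + 1), θ ^ j) ≤ 1 / (1 - θ) := by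
      have h2 := Summable.sum_le_tsum (f := fun j : ℕ => θ ^ j) (Finset.range (k + 1))
        (fun j _ => by positivity) (summable_geometric_of_lt_one hθ0.le hθ1)
      rw [tsum_geometric_of_lt_one hθ0.le hθ1] at h2
      rwa [one_div]
    calc σ k i ≤ c * (N * ∑ j ∈ Finset.range (k + 1), θ ^ j) := by
          simp only [hσ]
          rw [Finset.sum_range_succ]
          have h2 : 0 ≤ (i : ℝ) * θ ^ k := by positivity
          apply mul_le_mul_of_nonneg_left _ hc0
          nlinarith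
      _ ≤ c * (N * (1 / (1 - θ))) := by gcongr
      _ = ε₁ * C * N / (1 - θ) * θ ^ k₀ := by rw [hc]; ring
      _ ≤ η := hk₀
  -- the choice of `δ`
  obtain ⟨δ₁, hδ₁, hu⟩ := unif_cont f k₀ hη0
  refine ⟨min (δ₁ / 2) η, by positivity, fun x x' hG hx' => ?_⟩
  set v : X := ev f (-(k₀ : ℤ)) x with hv
  set v' : X := ev f (-(k₀ : ℤ)) x' with hv'
  have hvv : v' ∈ Sp f η v := by
    intro j
    rw [hv, hv', ← ev_add, ← ev_add]
    rcases le_or_gt k₀ j with hj | hj
    · obtain ⟨t, rfl⟩ := Nat.exists_eq_add_of_le hj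
      have h1 := hx' t
      rw [show ((k₀ + t : ℕ) : ℤ) + -(k₀ : ℤ) = (t : ℤ) by push_cast; ring]
      exact h1.trans (min_le_right _ _)
    · have h1 : dist x' x ≤ min (δ₁ / 2) η := Sp_dist hx'
      have h2 : dist x' x < δ₁ := by
        have h3 : min (δ₁ / 2) η ≤ δ₁ / 2 := min_le_left _ _
        linarith
      exact (hu _ _ h2 _ (by omega) (by omega)).le
  have key : ∀ z' i k, Rch f U P N x' z' i k → ∃ z, Rch f U P N x z i k ∧
      ev f (-((k + k₀ : ℕ) : ℤ)) z' ∈ Sp f ε₂ (ev f (-((k + k₀ : ℕ) : ℤ)) z) ∧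
      ev f (-((k + k₀ : ℕ) : ℤ)) z ∈ Sp f.symm (σ k i) v ∧
      ev f (-((k + k₀ : ℕ) : ℤ)) z' ∈ Sp f.symm (σ k i) v' := by
    intro z' i k h
    induction h with
    | start =>
      refine ⟨x, .start, ?_, ?_, ?_⟩
      · rw [zero_add]
        exact Sp_mono (min_le_right _ _) hvv
      · rw [zero_add]
        exact Sp_self (hσ0 0 N le_rfl) _
      · rw [zero_add]
        exact Sp_self (hσ0 0 N le_rfl) _
    | up z' i k h hz' ih =>
      obtain ⟨z, h1, h2, h3, h4⟩ := ih
      have e1 : ∀ w : X, ev f (-((k + 1 + k₀ : ℕ) : ℤ)) (f w) = ev f (-((k + k₀ : ℕ) : ℤ)) w := by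
        intro w
        rw [← ev_one (f := f), ← ev_add]
        congr 1
        push_cast
        ring
      have e2 : σ k i ≤ σ (k + 1) N := by
        simp only [hσ]
        rw [Finset.sum_range_succ]
        have h5 : 0 ≤ (i : ℝ) * θ ^ k := by positivity
        apply mul_le_mul_of_nonneg_left _ hc0
        nlinarith
      refine ⟨f z, .up _ _ _ h1 (hG _ _ _ h1), ?_, ?_, ?_⟩
      · rw [e1, e1]
        exact h2
      · rw [e1]
        exact Sp_mono e2 h3
      · rw [e1]
        exact Sp_mono e2 h4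
    | move z' y' i k h hz' hP ih =>
      obtain ⟨z, h1, h2, h3, h4⟩ := ih
      set K : ℕ := k + k₀ with hK
      have hiN : i + 1 ≤ N := h.le
      have hzU : f z ∈ U := hG _ _ _ h1
      have hcθ : C * Real.exp (-(a * K)) * ε₁ = c * θ ^ k := by
        rw [hpow, hK, pow_add, hc]
        ring
      have hσs : σ k (i + 1) + c * θ ^ k = σ k i := by
        simp only [hσ]
        push_cast
        ring
      have h5 := contr (by linarith) ha.le R.un he (hup _ _ hz' hP) K
      rw [hcθ] at h5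
      have h6 : ev f (-(K : ℤ)) y' ∈ Sp f.symm (σ k i) v' := by
        rw [← hσs]
        exact Sp_trans h4 h5
      -- the bracket
      have h7 : dist (ev f (-(K : ℤ)) y') v < δB := by
        have h8 : dist (ev f (-(K : ℤ)) y') v' ≤ σ k i := Sp_dist h6
        have h9 : dist v' v ≤ η := Sp_dist hvv
        have h10 := dist_triangle (ev f (-(K : ℤ)) y') v' v
        have h11 := hσ1 k i
        have h12 : η ≤ δB / 4 := min_le_left _ _
        linarith
      obtain ⟨b, hb1, hb2⟩ := hbr _ _ h7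
      set w : X := ev f K b with hw
      have hwb : ev f (-(K : ℤ)) w = b := by rw [hw, ev_neg_ev]
      have h8 : w ∈ Sp f ε₂ y' := by
        have h9 := Sp_ev hb1 K
        rwa [ev_ev_neg] at h9
      have hηε : η ≤ ε₂ := min_le_right _ _
      have h9 : w ∈ Sp f.symm (ε₁ + 2 * ε₂) z := by
        rw [mem_Sp_symm]
        intro j
        rcases le_or_gt j K with hj | hj
        · obtain ⟨t, ht⟩ := Nat.exists_eq_add_of_le hj
          have e1 : ∀ w : X, ev f (-(j : ℤ)) w = ev f t (ev f (-(K : ℤ)) w) := by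
            intro w
            rw [← ev_add]
            congr 1
            omega
          have h10 := mem_Sp_symm.1 (hup _ _ hz' hP) j
          rw [e1 y', e1 z'] at h10
          have h11 := hb1 t
          have h12 := h2 t
          rw [e1 w, e1 z, hwb]
          have h13 := dist_triangle4 (ev f t b) (ev f t (ev f (-(K : ℤ)) y'))
            (ev f t (ev f (-(K : ℤ)) z')) (ev f t (ev f (-(K : ℤ)) z))
          linarith
        · obtain ⟨t, ht⟩ := Nat.exists_eq_add_of_le hj.le
          have e1 : ∀ w : X, ev f (-(j : ℤ)) w = ev f (-(t : ℤ)) (ev f (-(K : ℤ)) w) := by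
            intro w
            rw [← ev_add]
            congr 1
            omega
          rw [e1 w, e1 z, hwb]
          have h10 := mem_Sp_symm.1 hb2 t
          have h11 := mem_Sp_symm.1 h3 t
          have h12 := dist_triangle_right (ev f (-(t : ℤ)) b)
            (ev f (-(t : ℤ)) (ev f (-(K : ℤ)) z)) (ev f (-(t : ℤ)) v)
          have h13 := hσ1 k (i + 1)
          linarith
      have h10 : P z w := by
        refine hinv z' z y' w hz' hzU ?_ hP h8 h9
        have h11 := Sp_ev (Sp_comm h2) K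
        rwa [ev_ev_neg, ev_ev_neg] at h11
      have h11 := contr (by linarith) ha.le R.un he (hup _ _ hzU h10) K
      rw [hcθ, hwb] at h11
      refine ⟨w, .move _ _ _ _ h1 hzU h10, ?_, ?_, h6⟩
      · rw [hwb]
        exact Sp_comm hb1
      · rw [hwb, ← hσs]
        exact Sp_trans h3 h11
  intro z' i k h
  obtain ⟨z, h1, h2, -, -⟩ := key z' i k h
  have h3 : z ∈ U := hG.mem hlow hF2 h1
  refine hmar z h3 z' ?_
  have h4 := Sp_ev h2 (k + k₀)
  rw [ev_ev_neg, ev_ev_neg] at h4
  exact Sp_dist h4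

/-- **Core.** A proper attractor carries no invariant family of unstable plaques. -/
theorem core [CompactSpace X] (R : Rates f U e C a a a) (hT : Trap f U)
    (hfr : (frontier U).Nonempty) {e₁ : ℝ} (he₁ : 0 < e₁) (h0 : Reaches₀ f e₁)
    (h0' : Reaches₀ f.symm e₁) (hr : 0 < r)
    (hε₂ : 0 < ε₂) (hε₁ : 0 ≤ ε₁) (he : ε₁ ≤ e)
    (hlow : ∀ x y, f x ∈ U → y ∈ Sp f.symm r x → P x y)
    (hup : ∀ x y, f x ∈ U → P x y → y ∈ Sp f.symm ε₁ x)
    (hinv : ∀ x x' y y', f x ∈ U → f x' ∈ U → x' ∈ Sp f ε₂ x → P x y → y' ∈ Sp f ε₂ y →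
      y' ∈ Sp f.symm (ε₁ + 2 * ε₂) x' → P x' y') : False := by
  -- the margin
  obtain ⟨η, hη, hmar⟩ := hT.exists_margin
  obtain ⟨η', hη', hu⟩ := unif_cont f 1 hη
  set ε₃ : ℝ := min ε₂ (η' / 2) with hε₃
  have hε₃0 : 0 < ε₃ := by positivity
  have hε₃2 : ε₃ ≤ ε₂ := min_le_left _ _
  have hmar' : ∀ z ∈ U, ∀ z', dist z' z ≤ ε₃ → f z' ∈ U := by
    intro z hz z' hzz'
    refine hmar z hz _ ?_
    have h1 : dist z' z < η' := by
      have h2 : ε₃ ≤ η' / 2 := min_le_right _ _
      linarith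
    have h2 := hu _ _ h1 1 (by norm_num) (by norm_num)
    rwa [ev_one, ev_one] at h2
  obtain ⟨N, hN⟩ := exists_F2 hT R.e0 (fun p q h => R.st_tendsto h) R.br he₁ h0 hr
  obtain ⟨δ, hδ, hst⟩ := stab (N := N) R hmar' hε₃0 hε₁ he hlow hup
    (fun x x' y y' h1 h2 h3 h4 h5 h6 => hinv x x' y y' h1 h2 (Sp_mono hε₃2 h3) h4
      (Sp_mono hε₃2 h5) (Sp_mono (by linarith) h6)) hN
  -- a point outside `f U`
  obtain ⟨y, hy⟩ := hfr
  rw [hT.isOpen.frontier_eq] at hy
  have h1 : ev f (-1) (f y) = y := by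
    rw [← ev_one (f := f), ev_neg_ev]
  have h2 : ¬ Good f U P N (f y) := not_good hlow (hN _ (by rw [h1]; exact hy.2))
  -- the stable chain to the attractor
  have hbr' : ∀ e' : ℝ, 0 < e' → ∃ δ : ℝ, 0 < δ ∧ ∀ x y, dist x y < δ →
      ∃ z, z ∈ Sp f.symm e' x ∧ z ∈ Sp f.symm.symm e' y := by
    intro e' he'
    obtain ⟨δ, hδ, h⟩ := R.br e' he'
    refine ⟨δ, hδ, fun x y hxy => ?_⟩
    rw [dist_comm] at hxy
    obtain ⟨z, hz1, hz2⟩ := h _ _ hxy
    exact ⟨z, hz2, hz1⟩
  obtain ⟨S, hS⟩ := exists_F2 hT.dual R.e0 (fun p q h => by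
    have := R.un_tendsto h
    simpa only [ev_symm] using this) hbr' he₁ h0' hδ
  obtain ⟨l, -, q, hq, t, ht0, htl, ht⟩ := hS (f y) (by
    rw [mem_compl_iff, not_not, ev_symm, neg_neg, ev_one]
    exact subset_closure (hT.maps _ (subset_closure (hT.maps _ hy.1))))
  rw [rep_dual hT] at hq
  have key : ∀ i ≤ l, Good f U P N (t (l - i)) := by
    intro i
    induction i with
    | zero =>
      intro _
      rw [Nat.sub_zero, htl]
      exact good_att hT (fun p q h => R.un_tendsto h) hup he hq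
    | succ i ih =>
      intro hi
      have h3 := ih (by omega)
      have h4 := (ht (l - (i + 1)) (by omega)).2
      rw [show l - (i + 1) + 1 = l - i by omega] at h4
      exact hst _ _ h3 (Sp_comm h4)
  have h3 := key l le_rfl
  rw [Nat.sub_self, ht0] at h3
  exact h2 h3

end Pool.Agent.Lib.MP610fe3.EQ
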