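import Pool.Agent.Lib.MP_610fe3_an.EQ.Mfd
import Pool.Agent.Lib.MP_610fe3_an.TD.Final

/-!
# Stable holonomy is not equicontinuous on a proper attractor: assembly
-/

open Set Filter Function Bundle
open scoped Manifold ContDiff Topology Uniformity

namespace Pool.Agent.Lib.MP610fe3.EQ

variable {V : Type*} [NormedAddCommGroup V] [NormedSpace ℝ V] [FiniteDimensional ℝ V]
  {M : Type*} [UniformSpace M] [CompactSpace M] [T2Space M] [ConnectedSpace M]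
  [ChartedSpace V M] [IsManifold 𝓘(ℝ, V) ∞ M]
  [RiemannianBundle (fun x : M => TangentSpace 𝓘(ℝ, V) x)]
  [IsContinuousRiemannianBundle V (fun x : M => TangentSpace 𝓘(ℝ, V) x)]

theorem final (f : M ≃ₘ^1⟮𝓘(ℝ, V), 𝓘(ℝ, V)⟯ M) (hf : Gen.IsAnosov f) :
    (∀ D ∈ 𝓤 M, ∃ S ∈ 𝓤 M, ∀ U : Set M, IsOpen U → U.Nonempty → U ≠ univ → f '' closure U ⊆ U →
      Wild f f.symm {x | ∀ n : ℕ, (⇑f.symm)^[n] x ∈ U} D S ∧
        Wild f.symm f {x | ∀ n : ℕ, (⇑f)^[n] x ∉ U} D S) ∧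
    (TopTransitive f ∨ ∃ U : Set M, IsOpen U ∧ U.Nonempty ∧ U ≠ univ ∧ f '' closure U ⊆ U) := by
  obtain ⟨Es, Eu, hA⟩ := hf
  obtain ⟨N, e, he, hemb, hinj⟩ := exists_embedding_euclidean_of_compact (I := 𝓘(ℝ, V)) (M := M)
  have hue : IsUniformEmbedding e := TD.isUniformEmbedding_of_compact hemb.isEmbedding
  let _ : MetricSpace M := hue.comapMetricSpace e
  have hiso : Isometry e := Isometry.of_dist_eq fun x y => rfl
  exact mfd_eq e hiso he hinj f Es Eu hA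

end Pool.Agent.Lib.MP610fe3.EQ
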